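import Mathlib
import Pool.Agent.W307.RS.Stm
import Pool.Agent.W342.RK2.LocL
import Pool.Agent.W214.RK2.Desc4

/-!
# Project RS: bound of the rank by the local count, classes with twists
-/

namespace Pool.Agent.W214.RS

open Finset Pool.Agent.W262.RK Pool.Agent.W307.RS

variable {J : Type} [Fintype J] [DecidableEq J]

/-- the number of the primes outside `s1` -/
lemma bad4B {cls : J → Fin 4} {a : Fin 3 → ℤ} {α β : J → ℤ} {z y X K B : ℕ}
    (hB : Big4 a α β z) {t : ℤ} (hX : 1 ≤ X) (hy : 1 ≤ y) (h0 : ∀ j, ff α β t j ≠ 0)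
    (hb : ∀ j, (ff α β t j).natAbs ≤ X ^ B) (hK : X < (y + 1) ^ K) :
    ((2 * F4 cls a α β t 0 * F4 cls a α β t 1 * F4 cls a α β t 2).natAbs.primeFactors.filter
        (fun q => ¬ q ∣ ∏ j, s1 α β z y t j)).card ≤
      z + Fintype.card J * (B * K) + ∑ j, (s2 α β z y t j).primeFactors.card := by
  have hsub : ((2 * F4 cls a α β t 0 * F4 cls a α β t 1 *
      F4 cls a α β t 2).natAbs.primeFactors.filter (fun q => ¬ q ∣ ∏ j, s1 α β z y t j)) ⊆
      ((Icc 1 z) ∪ univ.biUnion (fun j => (ff α β t j).natAbs.primeFactors.filter (y < ·))) ∪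
        univ.biUnion (fun j => (s2 α β z y t j).primeFactors) := by
    intro q hq
    rw [mem_filter] at hq
    have hp := Nat.prime_of_mem_primeFactors hq.1
    have hdv := Nat.dvd_of_mem_primeFactors hq.1
    rw [mem_union, mem_union, mem_Icc]
    rcases Nat.lt_or_ge z q with h | h
    swap
    · exact Or.inl (Or.inl ⟨hp.one_lt.le, h⟩)
    · have hqi : Prime (q : ℤ) := Nat.prime_iff_prime_int.1 hp
      have hdv2 : (q : ℤ) ∣ 2 * F4 cls a α β t 0 * F4 cls a α β t 1 * F4 cls a α β t 2 :=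
        Int.natCast_dvd.2 hdv
      have hk : ∃ k, (q : ℤ) ∣ F4 cls a α β t k := by
        rcases hqi.dvd_or_dvd hdv2 with h1 | h1
        · rcases hqi.dvd_or_dvd h1 with h2 | h2
          · rcases hqi.dvd_or_dvd h2 with h3 | h3
            · exfalso
              have h4 : q ∣ 2 := by exact_mod_cast h3
              have h5 := Nat.le_of_dvd (by norm_num) h4
              have := hB.1.1
              omega
            · exact ⟨0, h3⟩
          · exact ⟨1, h2⟩
        · exact ⟨2, h1⟩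
      obtain ⟨k, hk⟩ := hk
      rcases hqi.dvd_or_dvd hk with h1 | h1
      · exact absurd h1 (hB.2 q hp h k)
      · obtain ⟨l, _, hl⟩ := (hqi.dvd_finsetProd_iff _).1 h1
        rcases Nat.lt_or_ge y q with hyq | hyq
        · left; right
          rw [mem_biUnion]
          refine ⟨l, mem_univ _, ?_⟩
          rw [mem_filter, Nat.mem_primeFactors]
          exact ⟨⟨hp, Int.natCast_dvd.1 hl, Int.natAbs_ne_zero.2 (h0 l)⟩, hyq⟩
        · right
          have hPS : q ∈ PS z y := mem_PS.2 ⟨⟨h, hyq⟩, hp⟩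
          rw [mem_biUnion]
          refine ⟨l, mem_univ _, ?_⟩
          have hsq : (q : ℤ) ^ 2 ∣ ff α β t l := by
            by_contra hcon
            apply hq.2
            refine dvd_trans ?_ (dvd_prod_of_mem _ (mem_univ l))
            exact dvd_prod_of_mem _ (mem_filter.2 ⟨hPS, hl, hcon⟩)
          rw [Nat.mem_primeFactors]
          refine ⟨hp, dvd_prod_of_mem _ (mem_filter.2 ⟨hPS, hsq⟩), ?_⟩
          exact prod_ne_zero_iff.2 fun p hp => (mem_PS.1 (mem_filter.1 hp).1).2.ne_zero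
  have hone : ∀ j, ((ff α β t j).natAbs.primeFactors.filter (y < ·)).card ≤ B * K := by
    intro j
    set S := (ff α β t j).natAbs.primeFactors.filter (y < ·) with hS
    have h1 : (y + 1) ^ S.card ≤ ∏ q ∈ S, q :=
      Finset.pow_card_le_prod _ _ _ (fun q hq => by
        have := (mem_filter.1 hq).2
        omega)
    have h2 : ∏ q ∈ S, q ∣ (ff α β t j).natAbs :=
      (prod_dvd_prod_of_subset _ _ _ (filter_subset _ _)).trans (Nat.prod_primeFactors_dvd _)
    have h3 : ∏ q ∈ S, q ≤ (ff α β t j).natAbs :=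
      Nat.le_of_dvd (Nat.pos_of_ne_zero (Int.natAbs_ne_zero.2 (h0 j))) h2
    have h4 : (y + 1) ^ S.card ≤ (y + 1) ^ (B * K) := by
      calc (y + 1) ^ S.card ≤ X ^ B := h1.trans (h3.trans (hb j))
        _ ≤ ((y + 1) ^ K) ^ B := Nat.pow_le_pow_left hK.le B
        _ = (y + 1) ^ (B * K) := by rw [← pow_mul, mul_comm]
    exact (Nat.pow_le_pow_iff_right (by omega)).1 h4
  refine (card_le_card hsub).trans ((card_union_le _ _).trans (add_le_add
    ((card_union_le _ _).trans (add_le_add ?_ ?_)) card_biUnion_le))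
  · simp
  · refine card_biUnion_le.trans ?_
    refine (sum_le_sum fun j _ => hone j).trans ?_
    rw [sum_const, card_univ, smul_eq_mul]

/-- the rank is bounded by the local count -/
lemma rank4 (hdesc : DESC4) (hxc : XCL) (hloc : LOCL) {cls : J → Fin 4} {a : Fin 3 → ℤ}
    {α β : J → ℤ} {z y X k B : ℕ} (hB : Big4 a α β z) (ha : ∀ k, a k ≠ 0)
    (hκ0 : ∀ j k, kap4 cls a α β j k ≠ 0) (hκ : ∀ j k, (kap4 cls a α β j k).natAbs ≤ z) {t : ℤ}
    (hF : F4 cls a α β t 0 - F4 cls a α β t 1 = F4 cls a α β t 2)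
    (h0 : ∀ j, ff α β t j ≠ 0) (hb : ∀ j, (ff α β t j).natAbs ≤ X ^ B) (hX : 1 ≤ X) (hy : 1 ≤ y)
    (hk : X < (y + 1) ^ k) :
    2 ^ Module.finrank ℤ (EAB (F4 cls a α β t 0) (F4 cls a α β t 1)).toAffine.Point ≤
      4 ^ (z + 2) * ((4 ^ B) ^ Fintype.card J) ^ k * 4 ^ (∑ j, (s2 α β z y t j).primeFactors.card) *
        NL (∏ j, s1 α β z y t j) (LLs cls (kap4 cls a α β) (s1 α β z y t)
          (neg3 cls α β t (s1 α β z y t))) := by
  have hFne : ∀ k, F4 cls a α β t k ≠ 0 := fun k =>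
    mul_ne_zero (ha k) (prod_ne_zero_iff.2 fun l _ => h0 l)
  have hz2 : 2 ≤ z := by have := hB.1.1; omega
  set s := s1 α β z y t with hs
  have hmem : s ∈ Tup J z y := s1_mem hB.1 t
  have hmd : ∏ j, s j ∣ PP z y := Tup_prod_dvd hmem
  have hPSof : ∀ p : ℕ, p.Prime → p ∣ ∏ j, s j → p ∈ PS z y := fun p hp h =>
    (prime_dvd_PP hp).1 (h.trans hmd)
  have hnκ : ∀ p : ℕ, p.Prime → p ∣ ∏ j, s j → ∀ j k, ¬ (p : ℤ) ∣ kap4 cls a α β j k := by
    intro p hp h j k hd
    have h1 := (mem_PS.1 (hPSof p hp h)).1.1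
    have h2 := Nat.le_of_dvd (Int.natAbs_pos.2 (hκ0 j k)) (Int.natCast_dvd.1 hd)
    have h3 := hκ j k
    omega
  have hodd : ∀ p : ℕ, p.Prime → p ∣ ∏ j, s j → p ≠ 2 := by
    intro p hp h
    have h1 := (mem_PS.1 (hPSof p hp h)).1.1
    omega
  have hd := hdesc (∏ j, s j) (LLs cls (kap4 cls a α β) s (neg3 cls α β t s))
    (F4 cls a α β t 0) (F4 cls a α β t 1) (hFne 0) (hFne 1)
    (fun h => hFne 2 (by rw [← hF, h, sub_self]))
    (by
      rw [← Nat.not_even_iff_odd, even_iff_two_dvd]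
      intro h
      exact hodd 2 Nat.prime_two h rfl)
    ((PP_squarefree z y).squarefree_of_dvd hmd)
    (fun p hp hpd => ⟨fun j hj => (hxc _ _ _ p hp (hodd p hp hpd) (hnκ p hp hpd j)).1,
      fun a1 b1 c1 d1 a2 b2 c2 d2 e1 e2 j hj =>
        (hxc _ _ _ p hp (hodd p hp hpd) (hnκ p hp hpd j)).2 a1 b1 c1 d1 a2 b2 c2 d2
          (e1 j hj) (e2 j hj)⟩)
    (fun p hp hpd x x' hx' hcurve e1 e2 he1 he2 hsq1 hsq2 j hj => by
      have hpp : p.Prime := Fact.out
      have hjs : p ∈ PS z y ∧ (p : ℤ) ∣ ff α β t j ∧ ¬ (p : ℤ) ^ 2 ∣ ff α β t j := by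
        have h3 : p ∣ ∏ q ∈ (PS z y).filter (fun p : ℕ => (p : ℤ) ∣ ff α β t j ∧
          ¬ (p : ℤ) ^ 2 ∣ ff α β t j), q := hj
        exact mem_filter.1 ((prime_dvd_prodS (fun q hq => (mem_PS.1 (mem_filter.1 hq).1).2) hpp).1 h3)
      have hzp := (mem_PS.1 hjs.1).1.1
      refine hloc (cls j) (kap4 cls a α β j) _ p _ _ (hodd p hpp hpd) (hnκ p hpp hpd j)
        (locH4 hB hpp hzp hF hjs.2.1 hjs.2.2 (fun h3 => ?_)) x x' hx' hcurve e1 e2 he1 he2 hsq1 hsq2
      rw [decide_eq_true_eq]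
      unfold neg3 P3
      rw [mem_filter, Nat.mem_primeFactors]
      constructor
      · rintro ⟨_, l, hl3, hl, hl2⟩
        have : l = j := by
          by_contra hne
          have h4 := (mem_Tup'.1 hmem).2 l j hne
          exact hpp.one_lt.ne' (Nat.dvd_one.1 (h4 ▸ Nat.dvd_gcd hl hj))
        rwa [this] at hl2
      · intro h5
        refine ⟨⟨hpp, dvd_trans hj (dvd_prod_of_mem s (mem_filter.2 ⟨mem_univ _, h3⟩)), ?_⟩,
          j, h3, hj, h5⟩
        exact prod_ne_zero_iff.2 fun l _ => (Tup_pos hmem l).ne')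
  rw [hF] at hd
  refine hd.trans (Nat.mul_le_mul_right _ ?_)
  have hc := bad4B (cls := cls) (y := y) hB hX hy h0 hb hk
  rw [← hs] at hc
  calc 4 ^ (((2 * F4 cls a α β t 0 * F4 cls a α β t 1 *
        F4 cls a α β t 2).natAbs.primeFactors.filter (fun q => ¬ q ∣ ∏ j, s j)).card + 2)
      ≤ 4 ^ ((z + 2) + (Fintype.card J * (B * k)) + ∑ j, (s2 α β z y t j).primeFactors.card) :=
        Nat.pow_le_pow_right (by norm_num) (by omega)
    _ = _ := by
        rw [pow_add, pow_add]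
        congr 2
        rw [← pow_mul, ← pow_mul]
        congr 1
        ring

theorem rank4b : RANK4B := by
  intro J _ _ cls a α β z y X k B hB ha hκ0 hκ t hF h0 hb hX hy hk
  exact rank4 Pool.Agent.W214.RK2.desc4 Pool.Agent.W342.RK2.xcl Pool.Agent.W342.RK2.locl hB ha hκ0
    hκ hF h0 hb hX hy hk

end Pool.Agent.W214.RS
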